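import Mathlib
import Pool.Agent.TH888.R.Base
import Pool.Agent.H447R2.ML.Spec

set_option autoImplicit false

/-!
# The generalized Lenstra-Pomerance-Wagstaff law for every fixed pair: error term and sets

For integers `a > 1`, `-a < b < a`, `gcd (a, b) = 1`, a real `β > 0` and a prime `p` let `W a b β p`
be the `p`-rough part (the product, with multiplicity, of the prime factors larger than `p`) of
`⌊β a ^ p - b ^ p / (a - b)⌋`.  At the amplitude `β = 1 / (a - b)` the number `W a b β p` is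
`(a ^ p - b ^ p) / (a - b)` itself, for all primes `p` which do not divide `a - b`.  For a set `S`
let `M a b S β n` be the number of primes `p ≤ n` in `S` with `W a b β p` prime, and let `V S n` be
the sum of `log p / p` over the primes `p ≤ n` in `S`.  The pair `(a, b)` is fixed.  We prove that
for almost every `β > 0`, simultaneously for all pairs, the number of primes `p ≤ n` with
`W a b β p` prime is `(e ^ γ / log a) log n + O((log n) ^ (1/2) (log log n) ^ (5/2))`; that for every
set `S` and almost every `β > 0`, simultaneously for all pairs, there are infinitely many such primes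
`p` in `S` if and only if `V S n` is unbounded; and that in this case
`M a b S β n = (e ^ γ / log a) V S n + O((V L) ^ (1/2) (log (V L)) ^ 2)` with `V = V S n` and
`L = log log n`.
-/

namespace Pool.Agent.Results.MP_de9007_nt.FixedPairSets

open Filter Topology MeasureTheory Asymptotics

/-- The product, with multiplicity, of the prime factors of `m` that are larger than `p`. -/
def roughPart (p m : ℕ) : ℕ := (m.primeFactorsList.filter (fun r => p < r)).prod

/-- The `p`-rough part of `⌊β a ^ p - b ^ p / (a - b)⌋`. -/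
noncomputable def W (a b : ℤ) (β : ℝ) (p : ℕ) : ℕ :=
  roughPart p ⌊β * (a : ℝ) ^ p - (b : ℝ) ^ p / ((a : ℝ) - b)⌋₊

open Classical in
/-- The number of primes `p ≤ n` in the set `S` for which `W a b β p` is prime. -/
noncomputable def M (a b : ℤ) (S : Set ℕ) (β : ℝ) (n : ℕ) : ℕ :=
  ((Finset.range (n + 1)).filter (fun p => p.Prime ∧ p ∈ S ∧ (W a b β p).Prime)).card

open Classical in
/-- The sum of `log p / p` over the primes `p ≤ n` in the set `S`. -/
noncomputable def V (S : Set ℕ) (n : ℕ) : ℝ :=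
  ∑ p ∈ (Finset.range (n + 1)).filter (fun p => p.Prime ∧ p ∈ S), Real.log p / p

/-- The law with error term for all primes and for the primes in `S`, and the dichotomy. -/
structure Law (a b : ℤ) (β : ℝ) (S : Set ℕ) : Prop where
  /-- the number of all primes `p ≤ n` with `W a b β p` prime -/
  all : (fun n : ℕ => (M a b Set.univ β n : ℝ) -
      Real.exp Real.eulerMascheroniConstant / Real.log a * Real.log n) =O[atTop]
    (fun n : ℕ => Real.sqrt (Real.log n) * (Real.log (Real.log n)) ^ ((5 : ℝ) / 2))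
  /-- the number of primes `p ≤ n` in `S` with `W a b β p` prime -/
  sets : Tendsto (V S) atTop atTop → (fun n : ℕ => (M a b S β n : ℝ) -
      Real.exp Real.eulerMascheroniConstant / Real.log a * V S n) =O[atTop]
    (fun n : ℕ => Real.sqrt (V S n * Real.log (Real.log n)) *
      (Real.log (V S n * Real.log (Real.log n))) ^ 2)
  /-- there are infinitely many in `S` if and only if the weight of `S` is infinite -/
  dichotomy : {p : ℕ | p.Prime ∧ p ∈ S ∧ (W a b β p).Prime}.Infinite ↔ Tendsto (V S) atTop atTop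

lemma V_eq (S : Set ℕ) : V S = Pool.Agent.TH888.R.VS S := by
  classical
  funext n
  unfold V Pool.Agent.TH888.R.VS
  rw [Finset.sum_filter]
  refine Finset.sum_congr rfl fun p _ => ?_
  by_cases h : p.Prime ∧ p ∈ S
  · rw [if_pos h, if_pos ⟨h.2, h.1⟩]
    rfl
  · rw [if_neg h, if_neg fun h1 => h ⟨h1.2, h1.1⟩]

lemma M_eq (a b : ℤ) (S : Set ℕ) (β : ℝ) (n : ℕ) : M a b S β n = Pool.Agent.TH888.R.cS S
    (fun p => ⌊β * (a : ℝ) ^ p - (b : ℝ) ^ p / ((a : ℝ) - b)⌋₊) n := by
  classical
  unfold M Pool.Agent.TH888.R.cS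
  rfl

/-- the law from the library statement -/
lemma law_of {a b : ℤ} {β : ℝ} {S : Set ℕ}
    (h1 : Pool.Agent.TH888.R.Pt (fun p => ⌊β * (a : ℝ) ^ p - (b : ℝ) ^ p / ((a : ℝ) - b)⌋₊)
      (Real.exp Real.eulerMascheroniConstant / Real.log a) Set.univ)
    (h2 : Pool.Agent.TH888.R.Pt (fun p => ⌊β * (a : ℝ) ^ p - (b : ℝ) ^ p / ((a : ℝ) - b)⌋₊)
      (Real.exp Real.eulerMascheroniConstant / Real.log a) S) : Law a b β S := by
  refine ⟨?_, fun hS => ?_, ?_⟩
  · obtain ⟨B, hB, h⟩ := h1.law Pool.Agent.TH888.R.VS_univ_tendsto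
    simp only [M_eq]
    exact Pool.Agent.TH888.R.bigO_all hB h
  · rw [V_eq] at hS ⊢
    obtain ⟨B, hB, h⟩ := h2.law hS
    simp only [M_eq]
    exact Pool.Agent.TH888.R.bigO_set hB hS h
  · rw [V_eq]
    constructor
    · intro hi
      by_contra hn
      exact hi (h2.fin hn)
    · exact h2.inf

/-- The special amplitude. -/
lemma special {a b : ℤ} (hab : IsCoprime a b) (h1 : -a < b) (h2 : b < a) {p : ℕ} (hp : p.Prime)
    (hpd : ¬ (p : ℤ) ∣ a - b) : (W a b (1 / ((a : ℝ) - b)) p : ℤ) * (a - b) = a ^ p - b ^ p := by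
  have h := Pool.Agent.H447R2.ML.rough_quot hab h1 h2 hp hpd rfl
  have hgeom : (∑ i ∈ Finset.range p, a ^ i * b ^ (p - 1 - i)) * (a - b) = a ^ p - b ^ p :=
    (Commute.all a b).geom_sum₂_mul p
  rw [← h] at hgeom
  exact hgeom

lemma pt (a b : ℤ) (ha : 1 < a) (h1 : -a < b) (h2 : b < a) (S : Set ℕ) : ∀ᵐ β : ℝ, 0 < β →
    Pool.Agent.TH888.R.Pt (fun p => ⌊β * (a : ℝ) ^ p - (b : ℝ) ^ p / ((a : ℝ) - b)⌋₊)
      (Real.exp Real.eulerMascheroniConstant / Real.log a) S := by
  obtain ⟨A, hA⟩ := Int.eq_ofNat_of_zero_le (show 0 ≤ a by omega)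
  have hA2 : 2 ≤ A := by omega
  have hbr : |(b : ℝ)| < (A : ℝ) := by
    have h3 : |b| < a := abs_lt.2 ⟨h1, h2⟩
    rw [hA] at h3
    exact_mod_cast h3
  have hab : (0 : ℝ) < (A : ℝ) - b := by
    have := le_abs_self (b : ℝ)
    linarith
  have hg : ∀ p : ℕ, |(fun p : ℕ => -((b : ℝ) ^ p / ((A : ℝ) - b))) p| ≤
      1 / ((A : ℝ) - b) * |(b : ℝ)| ^ p := by
    intro p
    simp only
    rw [abs_neg, abs_div, abs_pow, abs_of_pos hab]
    exact le_of_eq (by ring)
  have hA1 : (1 : ℝ) < (A : ℝ) := by exact_mod_cast (by omega : 1 < A)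
  have key := Pool.Agent.TH888.R.pt_floor (α := (A : ℝ)) (κ := |(b : ℝ)|) (C := 1 / ((A : ℝ) - b))
    (g := fun p => -((b : ℝ) ^ p / ((A : ℝ) - b))) hA1 (abs_nonneg _) hbr hg
    (Pool.Agent.TH888.R.near_base hA2 (abs_nonneg _) hbr hg) S
  have e : (a : ℝ) = (A : ℝ) := by rw [hA]; simp
  rw [e]
  simp only [← sub_eq_add_neg] at key
  exact key

/-- For every set `S` and almost every amplitude, simultaneously for all pairs, the law holds with a
square root error term, with the dichotomy; at the amplitude `1 / (a - b)` the values are the numbers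
`(a ^ p - b ^ p) / (a - b)`. -/
theorem result :
    (∀ a b : ℤ, IsCoprime a b → -a < b → b < a → ∀ p : ℕ, p.Prime → ¬ (p : ℤ) ∣ a - b →
      (W a b (1 / ((a : ℝ) - b)) p : ℤ) * (a - b) = a ^ p - b ^ p) ∧
    (∀ S : Set ℕ, ∀ᵐ β : ℝ, 0 < β → ∀ a b : ℤ, 1 < a → -a < b → b < a → Law a b β S) := by
  refine ⟨fun a b hab h1 h2 p hp hpd => special hab h1 h2 hp hpd, fun S => ?_⟩
  have h : ∀ (S : Set ℕ) (a b : ℤ), ∀ᵐ β : ℝ, 1 < a → -a < b → b < a → 0 < β →
      Pool.Agent.TH888.R.Pt (fun p => ⌊β * (a : ℝ) ^ p - (b : ℝ) ^ p / ((a : ℝ) - b)⌋₊)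
        (Real.exp Real.eulerMascheroniConstant / Real.log a) S := by
    intro S a b
    by_cases hc : 1 < a ∧ -a < b ∧ b < a
    · filter_upwards [pt a b hc.1 hc.2.1 hc.2.2 S] with β hβ _ _ _
      exact hβ
    · exact Eventually.of_forall fun β h1 h2 h3 => absurd ⟨h1, h2, h3⟩ hc
  filter_upwards [ae_all_iff.2 fun a => ae_all_iff.2 (h Set.univ a),
    ae_all_iff.2 fun a => ae_all_iff.2 (h S a)] with β hβ hβ' h0 a b ha h1 h2
  exact law_of (hβ a b ha h1 h2 h0) (hβ' a b ha h1 h2 h0)

end Pool.Agent.Results.MP_de9007_nt.FixedPairSets
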