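import Mathlib
import Pool.Agent.Q43.LC.Pairs

/-!
# The numbers `(x ^ m - b ^ m) / (x - b)` at real points: prescribed lacunary sets of prime indices

For coprime integers `x > |b|` and a prime `m` the number `(x ^ m - b ^ m) / (x - b)` is the number
`M_m(x, b)` of the problem.  Let now the base `x` be real and let, for every index `m`, a real number
`b m` be prescribed, `|b m| ≤ β`, for example a constant, or a sequence that takes several integer values.
There is an absolute constant `C` such that for every set `S` that is lacunary with ratio `C` the set of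
the `x` in any given interval to the right of `β` for which the integer part of
`(x ^ m - (b m) ^ m) / (x - b m)` is prime for all large `m ∈ S` has Hausdorff dimension `1`.  For almost
every `x` only finitely many of these numbers are prime, if the sum of `1 / m` over `S` is finite.
-/

set_option autoImplicit false

namespace Pool.Agent.Results.MP_de9007_nt.LacunaryIndices

open MeasureTheory

/-- The number `(x ^ m - b ^ m) / (x - b)`. -/
noncomputable def N (x b : ℝ) (m : ℕ) : ℝ := (x ^ m - b ^ m) / (x - b)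

/-- Any two elements `m < n` of the set satisfy `C m ≤ n`. -/
def Lacunary (C : ℕ) (S : Set ℕ) : Prop := ∀ m ∈ S, ∀ n ∈ S, m < n → C * m ≤ n

/-- Prescribed lacunary sets of prime indices: dimension `1`; and almost every base. -/
theorem result :
    (∃ C : ℕ, 2 ≤ C ∧ ∀ β : ℝ, 1 ≤ β → ∀ b : ℕ → ℝ, (∀ m, |b m| ≤ β) →
      ∀ S : Set ℕ, Lacunary C S → ∀ s t : ℝ, β ≤ s → s < t →
        dimH {x : ℝ | s < x ∧ x < t ∧ ∃ M : ℕ, ∀ m ∈ S, M ≤ m → (⌊N x (b m) m⌋₊).Prime} = 1) ∧
    (∀ β : ℝ, 1 ≤ β → ∀ b : ℕ → ℝ, (∀ m, |b m| ≤ β) →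
      ∀ S : Set ℕ, (Summable fun m : S => 1 / ((m : ℕ) : ℝ)) →
        ∀ᵐ x : ℝ, β < x → ∃ M : ℕ, ∀ m ∈ S, M ≤ m → ¬ (⌊N x (b m) m⌋₊).Prime) := by
  refine ⟨?_, fun β hβ b hb S hS => ?_⟩
  · obtain ⟨C, hC2, hC⟩ := Pool.Agent.Q43.LC.q_dim
    refine ⟨C, hC2, fun β hβ b hb S hS s t hs hst => ?_⟩
    exact Pool.Agent.Q43.LC.dim_exp hβ hs hst fun b0 b1 h0 h1 => hC β hβ b hb S hS b0 b1 h0 h1
  · exact Pool.Agent.Q43.LC.ae_exp hβ
      (Q := fun x => ∃ M : ℕ, ∀ m ∈ S, M ≤ m → ¬ (⌊N x (b m) m⌋₊).Prime)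
      (Pool.Agent.Q43.LC.q_ae hβ hb hS)

end Pool.Agent.Results.MP_de9007_nt.LacunaryIndices
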