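import Mathlib
import Pool.Agent.Q43.CV.Pow
import Pool.Agent.H447R2.ML.Spec

set_option autoImplicit false

/-!
# The generalized Lenstra-Pomerance-Wagstaff conjecture at real bases: repulsion, and two pairs at one exponent

For real numbers `b` and `x > max (1, |b|)` and a prime `p` let `W b x p` be the `p`-rough part (the
product, with multiplicity, of the prime factors larger than `p`) of `⌊(x ^ p - b ^ p) / (x - b)⌋`.  For
coprime integers `x = a` and `b`, and primes `p` which do not divide `a - b`, this is the number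
`(a ^ p - b ^ p) / (a - b)` of the problem.  We prove for every countable set `D` of real numbers, for
example the set of all integers, and almost every `x > 1`:

* for all different `b, c` in `D` with `|b|, |c| < x` there are only finitely many primes `p` for which
  both `W b x p` and `W c x p` are prime;
* repulsion: for every set `E` of pairs of primes `p < q` (fixed before `x`) with a finite sum of the
  weights `(log p / p) (log q / q)` and all `b` in `D` with `|b| < x` there are only finitely many pairs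
  `(p, q)` in `E` for which both `W b x p` and `W b x q` are prime; and for all `ε > 0` and all large
  primes `p < q` with `W b x p` and `W b x q` prime, `q > p + p / (log p) ^ (1 + ε)`.
-/

namespace Pool.Agent.Results.MP_de9007_nt.RepulsionAndJointPrimes

open Filter Topology MeasureTheory

/-- The product, with multiplicity, of the prime factors of `m` that are larger than `p`. -/
def roughPart (p m : ℕ) : ℕ := (m.primeFactorsList.filter (fun r => p < r)).prod

/-- The `p`-rough part of the integer part of `(x ^ p - b ^ p) / (x - b)`. -/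
noncomputable def W (b x : ℝ) (p : ℕ) : ℕ := roughPart p ⌊(x ^ p - b ^ p) / (x - b)⌋₊

/-- The weight of an exponent. -/
noncomputable def wt (p : ℕ) : ℝ := Real.log p / p

/-- Repulsion for the pair `(x, b)` and the set `E` of pairs of exponents. -/
structure Repulsion (b x : ℝ) (E : Set (ℕ × ℕ)) : Prop where
  /-- only finitely many pairs in `E` occur -/
  pairs : {e ∈ E | (W b x e.1).Prime ∧ (W b x e.2).Prime}.Finite
  /-- the gaps -/
  gaps : ∀ ε : ℝ, 0 < ε → ∃ p₀ : ℕ, ∀ p q : ℕ, p₀ ≤ p → p < q → p.Prime → q.Prime →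
    (W b x p).Prime → (W b x q).Prime → (p : ℝ) + p / Real.log p ^ (1 + ε) < q

lemma W_eq (b x : ℝ) (p : ℕ) : W b x p = Pool.Agent.H305R2.roughPart p ⌊(x - b)⁻¹ * (x ^ p - b ^ p)⌋₊ := by
  unfold W
  rw [div_eq_inv_mul]
  rfl

lemma rep_of {b x : ℝ} {E : Set (ℕ × ℕ)}
    (h : Pool.Agent.Q43.CV.Rep (fun p => ⌊(x - b)⁻¹ * (x ^ p - b ^ p)⌋₊) E ∧
      Pool.Agent.Q43.CV.Gaps (fun p => ⌊(x - b)⁻¹ * (x ^ p - b ^ p)⌋₊)) : Repulsion b x E := by
  obtain ⟨h1, h2⟩ := h
  refine ⟨?_, ?_⟩
  · simp only [W_eq]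
    exact h1
  · simp only [W_eq]
    exact h2

/-- The special points. -/
lemma special {a b : ℤ} (hab : IsCoprime a b) (h1 : -a < b) (h2 : b < a) {p : ℕ} (hp : p.Prime)
    (hpd : ¬ (p : ℤ) ∣ a - b) : (W b a p : ℤ) * (a - b) = a ^ p - b ^ p := by
  have hgeom : (∑ i ∈ Finset.range p, a ^ i * b ^ (p - 1 - i)) * (a - b) = a ^ p - b ^ p :=
    (Commute.all a b).geom_sum₂_mul p
  have h := Pool.Agent.H447R2.ML.rough_quot hab h1 h2 hp hpd rfl
  rw [← h] at hgeom
  have e : W b a p = Pool.Agent.H305R2.roughPart p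
      ⌊1 / ((a : ℝ) - b) * (a : ℝ) ^ p - (b : ℝ) ^ p / ((a : ℝ) - b)⌋₊ := by
    rw [W_eq]
    congr 2
    ring
  rw [e]
  exact hgeom

section

variable {b M : ℝ}

lemma sub_pos' (hb : |b| ≤ M) {x : ℝ} (hx : M < x) : 0 < x - b := by
  have := le_abs_self b
  linarith

lemma inv_diff (hb : |b| ≤ M) : ContDiffOn ℝ 2 (fun u : ℝ => (u - b)⁻¹) (Set.Ioi M) :=
  ContDiffOn.inv (by fun_prop) fun _ hx => (sub_pos' hb hx).ne'

lemma inv_pos' (hb : |b| ≤ M) : ∀ x, M < x → 0 < (x - b)⁻¹ := fun _ hx => inv_pos.2 (sub_pos' hb hx)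

end

/-- two pairs -/
lemma joint {b c : ℝ} (hbc : b ≠ c) : ∀ᵐ x : ℝ, 1 < x → |b| < x → |c| < x →
    {p : ℕ | p.Prime ∧ (W b x p).Prime ∧ (W c x p).Prime}.Finite := by
  set M := max 1 (max |b| |c|) with hM
  have h1 : 1 ≤ M := le_max_left _ _
  have hb : |b| ≤ M := (le_max_left _ _).trans (le_max_right _ _)
  have hc : |c| ≤ M := (le_max_right _ _).trans (le_max_right _ _)
  filter_upwards [Pool.Agent.Q43.CV.joint_pow h1 hb hc (inv_diff hb) (inv_pos' hb) (inv_diff hc) (inv_pos' hc)]
    with x hx g1 g2 g3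
  have hxM : M < x := max_lt g1 (max_lt g2 g3)
  simp only [W_eq]
  refine hx hxM ?_
  have hxb := sub_pos' hb hxM
  have hxc := sub_pos' hc hxM
  have e : (fun u : ℝ => (u - c)⁻¹ / (u - b)⁻¹) =ᶠ[𝓝 x] fun u => (u - b) / (u - c) := by
    filter_upwards [Ioi_mem_nhds hxM] with u hu
    have h2 := (sub_pos' hb hu).ne'
    have h3 := (sub_pos' hc hu).ne'
    field_simp
  rw [e.deriv_eq]
  have h2 : HasDerivAt (fun u : ℝ => (u - b) / (u - c)) ((1 * (x - c) - (x - b) * 1) / (x - c) ^ 2) x :=
    ((hasDerivAt_id x).sub_const b).div ((hasDerivAt_id x).sub_const c) hxc.ne'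
  rw [h2.deriv]
  refine div_ne_zero ?_ (pow_ne_zero 2 hxc.ne')
  intro h3
  apply hbc
  linarith

/-- repulsion for one number `b` -/
lemma repel (b : ℝ) {E : Set (ℕ × ℕ)} (hE : ∀ e ∈ E, e.1.Prime ∧ e.2.Prime ∧ e.1 < e.2)
    (hs : Summable fun e : E => wt e.1.1 * wt e.1.2) : ∀ᵐ x : ℝ, 1 < x → |b| < x → Repulsion b x E := by
  have hb : |b| ≤ max 1 |b| := le_max_right _ _
  filter_upwards [Pool.Agent.Q43.CV.rep_pow (le_max_left 1 |b|) hb (inv_diff hb) (inv_pos' hb) E hE hs]
    with x hx g1 g2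
  exact rep_of (hx (max_lt g1 g2))

/-- At integers the values are the numbers `(a ^ p - b ^ p) / (a - b)`.  For almost every real base the
values for two different numbers `b`, `c` of a countable set are simultaneously prime only finitely
often, and the exponents of the prime values for one number repel each other. -/
theorem result :
    (∀ a b : ℤ, IsCoprime a b → -a < b → b < a → ∀ p : ℕ, p.Prime → ¬ (p : ℤ) ∣ a - b →
      (W b a p : ℤ) * (a - b) = a ^ p - b ^ p) ∧
    (∀ D : Set ℝ, D.Countable → ∀ᵐ x : ℝ, 1 < x → ∀ b ∈ D, ∀ c ∈ D, b ≠ c → |b| < x → |c| < x →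
      {p : ℕ | p.Prime ∧ (W b x p).Prime ∧ (W c x p).Prime}.Finite) ∧
    (∀ D : Set ℝ, D.Countable → ∀ E : Set (ℕ × ℕ), (∀ e ∈ E, e.1.Prime ∧ e.2.Prime ∧ e.1 < e.2) →
      (Summable fun e : E => wt e.1.1 * wt e.1.2) →
      ∀ᵐ x : ℝ, 1 < x → ∀ b ∈ D, |b| < x → Repulsion b x E) := by
  refine ⟨fun a b hab h1 h2 p hp hpd => special hab h1 h2 hp hpd, fun D hD => ?_, fun D hD E hE hs => ?_⟩
  · have h : ∀ b ∈ D, ∀ᵐ x : ℝ, ∀ c ∈ D, b ≠ c → 1 < x → |b| < x → |c| < x →
        {p : ℕ | p.Prime ∧ (W b x p).Prime ∧ (W c x p).Prime}.Finite := by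
      intro b _
      rw [ae_ball_iff hD]
      intro c _
      by_cases hbc : b = c
      · exact Eventually.of_forall fun x h => absurd hbc h
      · filter_upwards [joint hbc] with x hx _
        exact hx
    filter_upwards [(ae_ball_iff hD).2 h] with x hx h1 b hb c hc hbc g1 g2
    exact hx b hb c hc hbc h1 g1 g2
  · filter_upwards [(ae_ball_iff hD).2 fun b _ => repel b hE hs] with x hx h1 b hb g1
    exact hx b hb h1 g1

end Pool.Agent.Results.MP_de9007_nt.RepulsionAndJointPrimes
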