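import Mathlib
import Pool.Agent.Q43.UN.Fin
import Pool.Agent.H447R2.ML.Spec

set_option autoImplicit false

/-!
# The generalized Lenstra-Pomerance-Wagstaff law in all residue classes, uniformly in the modulus

For a sequence `s` of positive integers and a prime `p` let `W s p` be the `p`-rough part (the
product, with multiplicity, of the prime factors larger than `p`) of `s p`, and let `M s q r n` be the
number of primes `p ≤ n` with `p ≡ r (mod q)` and `W s p` prime.  We consider the sequences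
`⌊β a ^ p - b ^ p / (a - b)⌋` (integers `a > 1`, `-a < b < a`, real amplitude `β > 0`) and
`⌊(x ^ p - b ^ p) / (x - b)⌋` (`b` real, real base `x > max (1, |b|)`).  For `β = 1 / (a - b)` and for
`x = a` these are the numbers `(a ^ p - b ^ p) / (a - b)`, and `W s p` is this number itself if `a` and
`b` are coprime and `p` does not divide `a - b`.  We prove for almost every `β > 0` and all pairs
`(a, b)`, with `c = e ^ γ / log a`, and for every real `b` and almost every `x > max (1, |b|)`, with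
`c = e ^ γ / log x`: for every `ε > 0`, for ALL moduli `q`, all classes `r` prime to `q` and all `n`
simultaneously, `M s q r n = c log n / φ (q) + O (q ^ (1/2 + ε) (log n) ^ (1/2 + ε))`, with one
constant.  The main term dominates for `q ≤ (log n) ^ (1/3 - δ)`.  In particular, for all large `q`
every class prime to `q` contains a prime `p ≤ exp (q ^ (3 + ε))` with `W s p` prime.
-/

namespace Pool.Agent.Results.MP_de9007_nt.UniformProgressions

open Filter Topology MeasureTheory

/-- The product, with multiplicity, of the prime factors of `m` that are larger than `p`. -/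
def roughPart (p m : ℕ) : ℕ := (m.primeFactorsList.filter (fun r => p < r)).prod

/-- The `p`-rough part of the term with the index `p`. -/
def W (s : ℕ → ℕ) (p : ℕ) : ℕ := roughPart p (s p)

/-- The integer part of `β a ^ p - b ^ p / (a - b)`. -/
noncomputable def amp (a b : ℤ) (β : ℝ) (p : ℕ) : ℕ := ⌊β * (a : ℝ) ^ p - (b : ℝ) ^ p / ((a : ℝ) - b)⌋₊

/-- The integer part of `(x ^ p - b ^ p) / (x - b)`. -/
noncomputable def base (b x : ℝ) (p : ℕ) : ℕ := ⌊(x ^ p - b ^ p) / (x - b)⌋₊

open Classical in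
/-- The number of primes `p ≤ n` with `p ≡ a (mod q)` for which `W s p` is prime. -/
noncomputable def M (s : ℕ → ℕ) (q a n : ℕ) : ℕ :=
  ((Finset.range (n + 1)).filter (fun p => p.Prime ∧ p ≡ a [MOD q] ∧ (W s p).Prime)).card

/-- The law with the constant `c` in all residue classes, and the bound for the least exponent in a
residue class. -/
structure Law (s : ℕ → ℕ) (c : ℝ) : Prop where
  /-- the number of the exponents in a residue class, uniformly in the modulus -/
  uniform : ∀ ε : ℝ, 0 < ε → ∃ B : ℝ, ∀ n : ℕ, 3 ≤ n → ∀ q a : ℕ, 1 ≤ q → a.Coprime q →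
    |(M s q a n : ℝ) - c * (Real.log n / Nat.totient q)| ≤
      B * ((q : ℝ) ^ (1 / 2 + ε) * Real.log n ^ (1 / 2 + ε))
  /-- the least exponent in a residue class -/
  least : ∀ ε : ℝ, 0 < ε → ∃ Q : ℕ, ∀ q a : ℕ, Q ≤ q → a.Coprime q →
    ∃ p : ℕ, p.Prime ∧ p ≡ a [MOD q] ∧ (W s p).Prime ∧ (p : ℝ) ≤ Real.exp ((q : ℝ) ^ (3 + ε))

lemma M_eq (s : ℕ → ℕ) (q a n : ℕ) : M s q a n = Pool.Agent.TH888.R.cS (Pool.Agent.Q43.UN.Cl q a) s n := by
  classical
  unfold M Pool.Agent.TH888.R.cS
  congr 1
  ext p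
  simp only [Finset.mem_filter]
  rfl

lemma law_of {s : ℕ → ℕ} {c : ℝ} (hc : 0 < c) (h : Pool.Agent.Q43.UN.UPt s c) : Law s c := by
  refine ⟨fun ε hε => ?_, fun ε hε => h.least hc hε⟩
  obtain ⟨B, _, hB⟩ := h ε hε
  simp only [M_eq]
  exact ⟨B, hB⟩

/-- The special points. -/
lemma special {a b : ℤ} (hab : IsCoprime a b) (h1 : -a < b) (h2 : b < a) {p : ℕ} (hp : p.Prime)
    (hpd : ¬ (p : ℤ) ∣ a - b) : (W (amp a b (1 / ((a : ℝ) - b))) p : ℤ) * (a - b) = a ^ p - b ^ p ∧
      (W (base b a) p : ℤ) * (a - b) = a ^ p - b ^ p := by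
  have hgeom : (∑ i ∈ Finset.range p, a ^ i * b ^ (p - 1 - i)) * (a - b) = a ^ p - b ^ p :=
    (Commute.all a b).geom_sum₂_mul p
  have h := Pool.Agent.H447R2.ML.rough_quot hab h1 h2 hp hpd rfl
  have hgeom1 := hgeom
  rw [← h] at hgeom1
  have e : base b a p = amp a b (1 / ((a : ℝ) - b)) p := by
    unfold base amp
    congr 1
    ring
  refine ⟨hgeom1, ?_⟩
  unfold W
  rw [e]
  exact hgeom1

lemma upt_amp (a b : ℤ) (ha : 1 < a) (h1 : -a < b) (h2 : b < a) : ∀ᵐ β : ℝ, 0 < β →
    Pool.Agent.Q43.UN.UPt (amp a b β) (Real.exp Real.eulerMascheroniConstant / Real.log a) := by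
  obtain ⟨A, hA⟩ := Int.eq_ofNat_of_zero_le (show 0 ≤ a by omega)
  have hA2 : 2 ≤ A := by omega
  have hbr : |(b : ℝ)| < (A : ℝ) := by
    have h3 : |b| < a := abs_lt.2 ⟨h1, h2⟩
    rw [hA] at h3
    exact_mod_cast h3
  have hab : (0 : ℝ) < (A : ℝ) - b := by
    have := le_abs_self (b : ℝ)
    linarith
  have hg : ∀ p : ℕ, |(fun p : ℕ => -((b : ℝ) ^ p / ((A : ℝ) - b))) p| ≤
      1 / ((A : ℝ) - b) * |(b : ℝ)| ^ p := by
    intro p
    simp only
    rw [abs_neg, abs_div, abs_pow, abs_of_pos hab]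
    exact le_of_eq (by ring)
  have hA1 : (1 : ℝ) < (A : ℝ) := by exact_mod_cast (by omega : 1 < A)
  have key := Pool.Agent.Q43.UN.upt_floor (α := (A : ℝ)) (κ := |(b : ℝ)|) (C := 1 / ((A : ℝ) - b))
    (g := fun p => -((b : ℝ) ^ p / ((A : ℝ) - b))) hA1 (abs_nonneg _) hbr hg
    (Pool.Agent.TH888.R.near_base hA2 (abs_nonneg _) hbr hg)
  have e : (a : ℝ) = (A : ℝ) := by rw [hA]; simp
  unfold amp
  rw [e]
  simp only [← sub_eq_add_neg] at key
  exact key

/-- At `β = 1 / (a - b)` and at `x = a` the values are the numbers `(a ^ p - b ^ p) / (a - b)`.  For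
almost every amplitude and all pairs `(a, b)`, and for every real `b` and almost every real base, the
law holds in all residue classes with an error term that is uniform in the modulus. -/
theorem result :
    (∀ a b : ℤ, IsCoprime a b → -a < b → b < a → ∀ p : ℕ, p.Prime → ¬ (p : ℤ) ∣ a - b →
      (W (amp a b (1 / ((a : ℝ) - b))) p : ℤ) * (a - b) = a ^ p - b ^ p ∧
      (W (base b a) p : ℤ) * (a - b) = a ^ p - b ^ p) ∧
    (∀ᵐ β : ℝ, 0 < β → ∀ a b : ℤ, 1 < a → -a < b → b < a →
      Law (amp a b β) (Real.exp Real.eulerMascheroniConstant / Real.log a)) ∧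
    (∀ b : ℝ, ∀ᵐ x : ℝ, max 1 |b| < x →
      Law (base b x) (Real.exp Real.eulerMascheroniConstant / Real.log x)) := by
  refine ⟨fun a b hab h1 h2 p hp hpd => special hab h1 h2 hp hpd, ?_, fun b => ?_⟩
  · have h : ∀ (a b : ℤ), ∀ᵐ β : ℝ, 1 < a → -a < b → b < a → 0 < β →
        Pool.Agent.Q43.UN.UPt (amp a b β) (Real.exp Real.eulerMascheroniConstant / Real.log a) := by
      intro a b
      by_cases hc : 1 < a ∧ -a < b ∧ b < a
      · filter_upwards [upt_amp a b hc.1 hc.2.1 hc.2.2] with β hβ _ _ _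
        exact hβ
      · exact Eventually.of_forall fun β h1 h2 h3 => absurd ⟨h1, h2, h3⟩ hc
    filter_upwards [ae_all_iff.2 fun a => ae_all_iff.2 (h a)] with β hβ h0 a b ha h1 h2
    exact law_of (div_pos (Real.exp_pos _) (Real.log_pos (by exact_mod_cast ha))) (hβ a b ha h1 h2 h0)
  · have hlt : ∀ x : ℝ, max 1 |b| < x → 0 < x - b := fun x hx => by
      have := le_abs_self b
      have := (le_max_right 1 |b|).trans_lt hx
      linarith
    have h := Pool.Agent.Q43.UN.upt_curve b (A := fun x => (x - b)⁻¹)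
      (ContDiffOn.inv (by fun_prop) fun x hx => (hlt x hx).ne')
      (fun x hx => inv_pos.2 (hlt x hx))
    filter_upwards [h] with x hx h0
    refine law_of (div_pos (Real.exp_pos _) (Real.log_pos ((le_max_left _ _).trans_lt h0))) ?_
    have h1 := hx h0
    have e : base b x = fun p => ⌊(x - b)⁻¹ * (x ^ p - b ^ p)⌋₊ := by
      funext p
      unfold base
      congr 1
      rw [div_eq_inv_mul]
    rw [e]
    exact h1

end Pool.Agent.Results.MP_de9007_nt.UniformProgressions
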